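import Mathlib

/-!
# Radius of convergence of `q`-deformed real numbers (MP_b13893_an)

For every real number `x` the series `[x]_q` has radius of convergence at least `(3 - √5)/2`.
-/

open Filter Topology Finset
open scoped ENNReal NNReal

namespace Pool.Agent.Results.MP_b13893_an.QRadius

/-- The field `ℂ((q))` of formal Laurent series. -/
abbrev L : Type := LaurentSeries ℂ

/-- The variable `q`. -/
noncomputable def q : L := HahnSeries.single 1 1

/-- The `q`-integer `[n]_q = (1 - q ^ n) / (1 - q)` in `ℂ((q))`. -/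
noncomputable def qInt (n : ℕ) : L := (1 - q ^ n) / (1 - q)

/-- `negCF c N` is the real number `[[c 0, c 1, ..., c N]]` (negative continued fraction). -/
noncomputable def negCF : (ℕ → ℕ) → ℕ → ℝ
  | c, 0 => c 0
  | c, N + 1 => c 0 - 1 / negCF (fun j => c (j + 1)) N

/-- `qCF c N` is the `q`-deformed truncation `[[c 0, c 1, ..., c N]]_q`, an element of the field
`ℂ((q))`. -/
noncomputable def qCF : (ℕ → ℕ) → ℕ → L
  | c, 0 => qInt (c 0)
  | c, N + 1 => qInt (c 0) - q ^ (c 0 - 1) / qCF (fun j => c (j + 1)) N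

/-- `IsQReal x F` says that the Laurent series `F` is the `q`-deformation `[x]_q` of the real
number `x`. Either `x` is the limit of the truncations `[[c 0, ..., c N]]` with integers
`c j ≥ 2` and `F` is the coefficientwise (`q`-adic) limit of `[[c 0, ..., c N]]_q`, or `F` is
obtained from `[x + 1]_q` by the rule `[x]_q = q⁻¹ ([x + 1]_q - 1)`. -/
inductive IsQReal : ℝ → L → Prop
  | limit (x : ℝ) (F : L) (c : ℕ → ℕ) (hc : ∀ j, 2 ≤ c j)
      (hx : Tendsto (fun N => negCF c N) atTop (𝓝 x))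
      (hF : ∀ k : ℤ, ∀ᶠ N in atTop, (qCF c N).coeff k = F.coeff k) : IsQReal x F
  | shift (x : ℝ) (F : L) (h : IsQReal x F) : IsQReal (x - 1) (q⁻¹ * (F - 1))

/-- The radius of convergence of (the regular part of) a Laurent series. -/
noncomputable def radius (F : L) : ℝ≥0∞ :=
  (FormalMultilinearSeries.ofScalars ℂ (fun k : ℕ => F.coeff k)).radius

/-! ### Taylor series of analytic functions at `0` -/

/-- Taylor series at the origin. -/
noncomputable def T (G : ℂ → ℂ) : PowerSeries ℂ :=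
  PowerSeries.mk fun k => iteratedDeriv k G 0 / (k.factorial : ℂ)

lemma T_mul {G H : ℂ → ℂ} (hG : AnalyticAt ℂ G 0) (hH : AnalyticAt ℂ H 0) :
    T (G * H) = T G * T H := by
  ext k
  rw [PowerSeries.coeff_mul, Finset.Nat.sum_antidiagonal_eq_sum_range_succ_mk]
  simp only [T, PowerSeries.coeff_mk]
  rw [iteratedDeriv_mul hG.contDiffAt hH.contDiffAt, Finset.sum_div]
  apply Finset.sum_congr rfl
  intro i hi
  have hik : i ≤ k := Nat.lt_succ_iff.mp (Finset.mem_range.mp hi)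
  have h1 : ((k.choose i : ℕ) : ℂ) * (i.factorial : ℂ) * ((k - i).factorial : ℂ) = k.factorial := by
    exact_mod_cast Nat.choose_mul_factorial_mul_factorial hik
  have h2 : (i.factorial : ℂ) ≠ 0 := by exact_mod_cast Nat.factorial_ne_zero i
  have h3 : ((k - i).factorial : ℂ) ≠ 0 := by exact_mod_cast Nat.factorial_ne_zero (k - i)
  have h4 : (k.factorial : ℂ) ≠ 0 := by exact_mod_cast Nat.factorial_ne_zero k
  rw [div_mul_div_comm, div_eq_div_iff h4 (mul_ne_zero h2 h3), ← h1]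
  ring

lemma T_sub {G H : ℂ → ℂ} (hG : AnalyticAt ℂ G 0) (hH : AnalyticAt ℂ H 0) :
    T (G - H) = T G - T H := by
  ext k
  simp only [T, PowerSeries.coeff_mk, map_sub]
  rw [iteratedDeriv_sub hG.contDiffAt hH.contDiffAt, sub_div]

lemma T_add {G H : ℂ → ℂ} (hG : AnalyticAt ℂ G 0) (hH : AnalyticAt ℂ H 0) :
    T (G + H) = T G + T H := by
  ext k
  simp only [T, PowerSeries.coeff_mk, map_add]
  rw [iteratedDeriv_add hG.contDiffAt hH.contDiffAt, add_div]

lemma T_pow (m : ℕ) : T (fun z => z ^ m) = PowerSeries.X ^ m := by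
  ext k
  simp only [T, PowerSeries.coeff_mk, PowerSeries.coeff_X_pow]
  rw [iteratedDeriv_fun_pow_zero]
  split_ifs with h
  · rw [h, div_self]
    exact_mod_cast Nat.factorial_ne_zero m
  · simp

lemma T_zero : T (fun _ => (0:ℂ)) = 0 := by
  ext k
  simp only [T, PowerSeries.coeff_mk, map_zero]
  rw [iteratedDeriv_const]
  simp

lemma T_geom (m : ℕ) : T (fun z => ∑ i ∈ range m, z ^ i) = ∑ i ∈ range m, PowerSeries.X ^ i := by
  induction m with
  | zero => simpa using T_zero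
  | succ m ih =>
    have h1 : (fun z : ℂ => ∑ i ∈ range (m + 1), z ^ i)
        = (fun z : ℂ => ∑ i ∈ range m, z ^ i) + fun z => z ^ m := by
      ext z
      simp [Finset.sum_range_succ]
    rw [h1, T_add (by fun_prop) (by fun_prop), ih, T_pow, Finset.sum_range_succ]

lemma T_inv {G : ℂ → ℂ} (hG : AnalyticAt ℂ G 0) (h0 : G 0 ≠ 0) : T (G⁻¹) = (T G)⁻¹ := by
  have hcc : PowerSeries.constantCoeff (T G) ≠ 0 := by
    simp only [T, PowerSeries.constantCoeff_mk]
    simpa using h0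
  rw [PowerSeries.eq_inv_iff_mul_eq_one hcc, ← T_mul (hG.inv h0) hG]
  have hev : G⁻¹ * G =ᶠ[𝓝 0] fun z => z ^ 0 := by
    have := hG.continuousAt.eventually_ne h0
    filter_upwards [this] with z hz
    simp [hz]
  have h2 : T (G⁻¹ * G) = T (fun z => z ^ 0) := by
    ext k
    simp only [T, PowerSeries.coeff_mk]
    rw [hev.iteratedDeriv_eq k]
  rw [h2, T_pow, pow_zero]

/-! ### The golden mean -/

/-- The inverse `1/φ = (√5 - 1)/2` of the golden mean. -/
noncomputable def g : ℝ := (√5 - 1) / 2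

lemma g_sq : g ^ 2 = 1 - g := by
  have h : √5 ^ 2 = 5 := Real.sq_sqrt (by norm_num)
  unfold g
  nlinarith

lemma g_pos : 0 < g := by
  have : (1:ℝ) < √5 := by
    rw [Real.lt_sqrt (by norm_num)]; norm_num
  unfold g
  linarith

lemma g_lt_one : g < 1 := by
  have : √5 < 3 := by
    rw [Real.sqrt_lt' (by norm_num)]; norm_num
  unfold g
  linarith

lemma Rstar_eq : (3 - √5) / 2 = g ^ 2 := by
  rw [g_sq]
  unfold g
  ring

/-! ### The truncations as functions -/

/-- The truncations as functions of the complex variable. -/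
noncomputable def Gfun : (ℕ → ℕ) → ℕ → ℂ → ℂ
  | c, 0 => fun z => ∑ i ∈ range (c 0), z ^ i
  | c, N + 1 => fun z => ∑ i ∈ range (c 0), z ^ i
      - z ^ (c 0 - 1) * (Gfun (fun j => c (j + 1)) N z)⁻¹

lemma iter_bound {z w : ℂ} (hz : ‖z‖ < g ^ 2) (hw : ‖w‖ < 1 + g) (m : ℕ) :
    ‖(∑ i ∈ range (m + 1), z ^ i + z ^ (m + 1) * w) - 1‖ < g := by
  have hg := g_pos
  have key : ∀ u : ℂ, ‖u‖ < 1 + g → ‖z * u‖ < g := by
    intro u hu
    have h1 : g ^ 2 * (1 + g) = g := by
      have := g_sq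
      nlinarith
    rw [norm_mul]
    calc ‖z‖ * ‖u‖ ≤ ‖z‖ * (1 + g) := by gcongr
      _ < g ^ 2 * (1 + g) := by gcongr
      _ = g := h1
  induction m with
  | zero => simpa using key w hw
  | succ m ih =>
    have h1 : (∑ i ∈ range (m + 1 + 1), z ^ i + z ^ (m + 1 + 1) * w) - 1
        = z * (∑ i ∈ range (m + 1), z ^ i + z ^ (m + 1) * w) := by
      rw [Finset.sum_range_succ' _ (m + 1), mul_add, Finset.mul_sum]
      simp only [pow_succ', pow_zero]
      ring
    rw [h1]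
    apply key
    calc ‖∑ i ∈ range (m + 1), z ^ i + z ^ (m + 1) * w‖
        = ‖((∑ i ∈ range (m + 1), z ^ i + z ^ (m + 1) * w) - 1) + 1‖ := by rw [sub_add_cancel]
      _ ≤ ‖(∑ i ∈ range (m + 1), z ^ i + z ^ (m + 1) * w) - 1‖ + ‖(1:ℂ)‖ := norm_add_le _ _
      _ < g + 1 := by rw [norm_one]; linarith
      _ = 1 + g := add_comm _ _

lemma ne_zero_of {w : ℂ} (hw : ‖w - 1‖ < g) : w ≠ 0 := by
  rintro rfl
  have := g_lt_one
  simp at hw
  linarith

lemma U_bound {w : ℂ} (hw : ‖w - 1‖ < g) : ‖1 - w⁻¹‖ < 1 + g := by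
  have hg := g_pos
  have hg1 := g_lt_one
  have hgs := g_sq
  have hw0 : w ≠ 0 := ne_zero_of hw
  have h1 : (1:ℂ) - w⁻¹ = (w - 1) / w := by field_simp
  have h2 : g ^ 2 < ‖w‖ := by
    have h3 : ‖(1:ℂ)‖ ≤ ‖w‖ + ‖w - 1‖ := by
      calc ‖(1:ℂ)‖ = ‖w - (w - 1)‖ := by ring_nf
        _ ≤ ‖w‖ + ‖w - 1‖ := norm_sub_le _ _
    rw [norm_one] at h3
    linarith
  have h4 : 0 < ‖w‖ := norm_pos_iff.mpr hw0
  rw [h1, norm_div, div_lt_iff₀ h4]
  have h5 : (1 + g) * g ^ 2 = g := by nlinarith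
  nlinarith

lemma Gfun_bound (N : ℕ) : ∀ (c : ℕ → ℕ), (∀ j, 2 ≤ c j) → ∀ z : ℂ, ‖z‖ < g ^ 2 →
    ‖Gfun c N z - 1‖ < g := by
  induction N with
  | zero =>
    intro c hc z hz
    obtain ⟨m, hm⟩ : ∃ m, c 0 = m + 1 + 1 := ⟨c 0 - 2, by have := hc 0; omega⟩
    have h1 := iter_bound hz (w := 1) (by rw [norm_one]; linarith [g_pos]) m
    simp only [Gfun, hm]
    rw [Finset.sum_range_succ]
    simpa using h1
  | succ N ih =>
    intro c hc z hz
    obtain ⟨m, hm⟩ : ∃ m, c 0 = m + 1 + 1 := ⟨c 0 - 2, by have := hc 0; omega⟩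
    have h0 := ih (fun j => c (j + 1)) (fun j => hc (j + 1)) z hz
    have h1 := iter_bound hz (w := 1 - (Gfun (fun j => c (j + 1)) N z)⁻¹) (U_bound h0) m
    simp only [Gfun, hm]
    rw [Finset.sum_range_succ]
    have h2 : m + 1 + 1 - 1 = m + 1 := rfl
    rw [h2]
    convert h1 using 2
    ring

lemma Gfun_diff (N : ℕ) : ∀ (c : ℕ → ℕ), (∀ j, 2 ≤ c j) →
    DifferentiableOn ℂ (Gfun c N) (Metric.ball 0 (g ^ 2)) := by
  induction N with
  | zero =>
    intro c hc
    unfold Gfun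
    fun_prop
  | succ N ih =>
    intro c hc
    unfold Gfun
    apply DifferentiableOn.sub (by fun_prop)
    apply DifferentiableOn.mul (by fun_prop)
    apply (ih (fun j => c (j + 1)) (fun j => hc (j + 1))).inv
    intro z hz
    rw [mem_ball_zero_iff] at hz
    exact ne_zero_of (Gfun_bound N (fun j => c (j + 1)) (fun j => hc (j + 1)) z hz)

lemma Gfun_analyticAt (N : ℕ) (c : ℕ → ℕ) (hc : ∀ j, 2 ≤ c j) : AnalyticAt ℂ (Gfun c N) 0 :=
  (Gfun_diff N c hc).analyticAt (Metric.ball_mem_nhds 0 (pow_pos g_pos 2))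

lemma coe_inv {f : PowerSeries ℂ} (hf : PowerSeries.constantCoeff f ≠ 0) :
    ((f⁻¹ : PowerSeries ℂ) : L) = (f : L)⁻¹ := by
  apply eq_inv_of_mul_eq_one_left
  rw [← PowerSeries.coe_mul, PowerSeries.inv_mul_cancel f hf, PowerSeries.coe_one]

lemma one_sub_q_ne : (1 - q : L) ≠ 0 := by
  intro h
  have h1 : ((1 - PowerSeries.X : PowerSeries ℂ) : L) = 0 := by
    rw [PowerSeries.coe_sub, PowerSeries.coe_one, PowerSeries.coe_X]
    exact h
  have h2 := congrArg (fun F : L => F.coeff 0) h1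
  have h3 := LaurentSeries.coeff_coe_powerSeries (1 - PowerSeries.X : PowerSeries ℂ) 0
  simp only [Nat.cast_zero] at h3
  rw [h3] at h2
  simp at h2

lemma coe_qInt (m : ℕ) : ((∑ i ∈ range m, PowerSeries.X ^ i : PowerSeries ℂ) : L) = qInt m := by
  unfold qInt
  rw [eq_div_iff one_sub_q_ne]
  have h1 : q = ((PowerSeries.X : PowerSeries ℂ) : L) := PowerSeries.coe_X.symm
  have h2 : (1 - q : L) = ((1 - PowerSeries.X : PowerSeries ℂ) : L) := by
    rw [PowerSeries.coe_sub, PowerSeries.coe_one, h1]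
  have h3 : (1 - q ^ m : L) = ((1 - PowerSeries.X ^ m : PowerSeries ℂ) : L) := by
    rw [PowerSeries.coe_sub, PowerSeries.coe_one, PowerSeries.coe_pow, h1]
  rw [h2, h3, ← PowerSeries.coe_mul, geom_sum_mul_neg]

lemma coe_T (N : ℕ) : ∀ (c : ℕ → ℕ), (∀ j, 2 ≤ c j) → ((T (Gfun c N) : PowerSeries ℂ) : L) = qCF c N := by
  induction N with
  | zero =>
    intro c hc
    simp only [Gfun, qCF]
    rw [T_geom, coe_qInt]
  | succ N ih =>
    intro c hc
    have hc' : ∀ j, 2 ≤ c (j + 1) := fun j => hc (j + 1)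
    have hA := Gfun_analyticAt N (fun j => c (j + 1)) hc'
    have hne : Gfun (fun j => c (j + 1)) N 0 ≠ 0 :=
      ne_zero_of (Gfun_bound N _ hc' 0 (by simpa using pow_pos g_pos 2))
    have hcc : PowerSeries.constantCoeff (T (Gfun (fun j => c (j + 1)) N)) ≠ 0 := by
      simp only [T, PowerSeries.constantCoeff_mk]
      simpa using hne
    have h1 : Gfun c (N + 1) = (fun z => ∑ i ∈ range (c 0), z ^ i)
        - (fun z => z ^ (c 0 - 1)) * (Gfun (fun j => c (j + 1)) N)⁻¹ := by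
      ext z
      simp [Gfun]
    rw [h1, T_sub (by fun_prop) (AnalyticAt.mul (by fun_prop) (hA.inv hne)),
      T_mul (by fun_prop) (hA.inv hne), T_geom, T_pow, T_inv hA hne, PowerSeries.coe_sub,
      coe_qInt, PowerSeries.coe_mul, coe_inv hcc, ih _ hc', PowerSeries.coe_pow, PowerSeries.coe_X]
    simp only [qCF]
    rw [div_eq_mul_inv]
    rfl

lemma coeff_T_bound (N : ℕ) (c : ℕ → ℕ) (hc : ∀ j, 2 ≤ c j) {r : ℝ} (hr : 0 < r)
    (hr' : r < g ^ 2) (k : ℕ) : ‖PowerSeries.coeff k (T (Gfun c N))‖ * r ^ k ≤ 1 + g := by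
  have hsub : Metric.closedBall (0:ℂ) r ⊆ Metric.ball 0 (g ^ 2) :=
    Metric.closedBall_subset_ball hr'
  have hd : DiffContOnCl ℂ (Gfun c N) (Metric.ball 0 r) :=
    ((Gfun_diff N c hc).mono hsub).diffContOnCl_ball le_rfl
  have hb : ∀ z ∈ Metric.sphere (0:ℂ) r, ‖Gfun c N z‖ ≤ 1 + g := by
    intro z hz
    have hz' : ‖z‖ < g ^ 2 := by
      rw [mem_sphere_zero_iff_norm] at hz
      rw [hz]; exact hr'
    have h1 := Gfun_bound N c hc z hz'
    calc ‖Gfun c N z‖ = ‖(Gfun c N z - 1) + 1‖ := by rw [sub_add_cancel]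
      _ ≤ ‖Gfun c N z - 1‖ + ‖(1:ℂ)‖ := norm_add_le _ _
      _ ≤ 1 + g := by rw [norm_one]; linarith
  have h := Complex.norm_iteratedDeriv_le_of_forall_mem_sphere_norm_le k hr hd hb
  simp only [T, PowerSeries.coeff_mk]
  rw [norm_div, Complex.norm_natCast]
  have hk : (0:ℝ) < k.factorial := by exact_mod_cast Nat.factorial_pos k
  rw [div_mul_eq_mul_div, div_le_iff₀ hk]
  have h2 := mul_le_mul_of_nonneg_right h (pow_pos hr k).le
  rw [div_mul_cancel₀ _ (pow_pos hr k).ne'] at h2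
  linarith

lemma coeff_bound {x : ℝ} {F : L} (h : IsQReal x F) {r : ℝ} (hr : 0 < r) (hr' : r < g ^ 2) :
    ∃ C : ℝ, ∀ k : ℕ, ‖F.coeff k‖ * r ^ k ≤ C := by
  induction h with
  | limit x F c hc hx hF =>
    refine ⟨1 + g, fun k => ?_⟩
    obtain ⟨N, hN⟩ := (hF k).exists
    rw [← hN, ← coe_T N c hc, LaurentSeries.coeff_coe_powerSeries]
    exact coeff_T_bound N c hc hr hr' k
  | shift x F h ih =>
    obtain ⟨C, hC⟩ := ih
    refine ⟨C / r, fun k => ?_⟩
    have hq : q ≠ 0 := by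
      unfold q
      simp
    have h1 : F - 1 = q * (q⁻¹ * (F - 1)) := by
      rw [← mul_assoc, mul_inv_cancel₀ hq, one_mul]
    have h2 : (F - 1).coeff ((k : ℤ) + 1) = (q⁻¹ * (F - 1)).coeff k := by
      conv_lhs => rw [h1]
      unfold q
      rw [HahnSeries.coeff_single_mul_add, one_mul]
    have h3 : (F - 1).coeff ((k : ℤ) + 1) = F.coeff ((k + 1 : ℕ) : ℤ) := by
      rw [HahnSeries.coeff_sub, HahnSeries.coeff_one, if_neg (by omega), sub_zero]
      push_cast
      rfl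
    rw [← h2, h3, le_div_iff₀ hr]
    have := hC (k + 1)
    rw [pow_succ, ← mul_assoc] at this
    exact this

/-! ### Existence -/

/-- The successive remainders of the negative continued fraction algorithm. -/
noncomputable def rem (x : ℝ) : ℕ → ℝ
  | 0 => x
  | n + 1 => 1 / (⌊rem x n⌋₊ + 1 - rem x n)

lemma one_le_rem {x : ℝ} (hx : 1 ≤ x) (n : ℕ) : 1 ≤ rem x n := by
  induction n with
  | zero => exact hx
  | succ n ih =>
    have h1 : rem x n < ⌊rem x n⌋₊ + 1 := Nat.lt_floor_add_one _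
    have h2 : (⌊rem x n⌋₊ : ℝ) ≤ rem x n := Nat.floor_le (by linarith)
    rw [rem, le_div_iff₀ (by linarith)]
    linarith

lemma rem_shift (x : ℝ) (n : ℕ) : rem (rem x 1) n = rem x (n + 1) := by
  induction n with
  | zero => rfl
  | succ n ih => rw [rem, ih]; rfl

lemma negCF_rem (N : ℕ) : ∀ x : ℝ, 1 ≤ x →
    x ≤ negCF (fun j => ⌊rem x j⌋₊ + 1) N ∧
      negCF (fun j => ⌊rem x j⌋₊ + 1) N - x ≤ 1 / (N + 1 : ℝ) := by
  induction N with
  | zero =>
    intro x hx
    simp only [negCF, rem]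
    have h1 : x < ⌊x⌋₊ + 1 := Nat.lt_floor_add_one _
    have h2 : (⌊x⌋₊ : ℝ) ≤ x := Nat.floor_le (by linarith)
    push_cast
    constructor
    · linarith
    · norm_num; linarith
  | succ N ih =>
    intro x hx
    have h1 : x < ⌊x⌋₊ + 1 := Nat.lt_floor_add_one _
    have h2 : (⌊x⌋₊ : ℝ) ≤ x := Nat.floor_le (by linarith)
    set y := rem x 1 with hy
    have hy1 : 1 ≤ y := one_le_rem hx 1
    have hyx : x = (⌊x⌋₊ + 1 : ℝ) - 1 / y := by
      rw [hy]
      simp only [rem]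
      rw [one_div_one_div]
      ring
    have heq : (fun j => (fun j => ⌊rem x j⌋₊ + 1) (j + 1)) = fun j => ⌊rem y j⌋₊ + 1 := by
      ext j
      rw [hy, rem_shift]
    simp only [negCF]
    have heq' : (fun j => ⌊rem x (j + 1)⌋₊ + 1) = fun j => ⌊rem y j⌋₊ + 1 := heq
    rw [heq']
    obtain ⟨ih1, ih2⟩ := ih y hy1
    set t := negCF (fun j => ⌊rem y j⌋₊ + 1) N with ht
    have ht1 : 1 ≤ t := hy1.trans ih1
    have hN : (0:ℝ) < N + 1 := by positivity
    simp only [rem]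
    push_cast
    have h5 : 1 / t ≤ 1 / y := one_div_le_one_div_of_le (by linarith) ih1
    constructor
    · linarith
    · have h6 : 1 / y - 1 / t = (t - y) / (y * t) := by
        have : y ≠ 0 := by linarith
        have : t ≠ 0 := by linarith
        field_simp
      have h7 : (⌊x⌋₊ + 1 : ℝ) - 1 / t - x = (t - y) / (y * t) := by
        rw [← h6]; linarith
      rw [h7, div_le_div_iff₀ (by positivity) (by positivity), one_mul]
      -- (t - y) (N + 2) ≤ y t
      have h8 : (t - y) * (N + 1) ≤ 1 := by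
        rw [le_div_iff₀ hN] at ih2
        linarith
      nlinarith [mul_nonneg (sub_nonneg.mpr hy1) (sub_nonneg.mpr ht1),
        mul_nonneg (sub_nonneg.mpr ih1) (sub_nonneg.mpr hy1)]

/-- Truncations agree up to high order. -/
lemma stab (N : ℕ) : ∀ (c : ℕ → ℕ), (∀ j, 2 ≤ c j) → ∀ M, N ≤ M →
    (PowerSeries.X ^ (N + 1) : PowerSeries ℂ) ∣ T (Gfun c M) - T (Gfun c N) := by
  have hcoe : ∀ (c : ℕ → ℕ), (∀ j, 2 ≤ c j) → ∀ M, PowerSeries.constantCoeff (T (Gfun c M)) ≠ 0 := by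
    intro c hc M
    simp only [T, PowerSeries.constantCoeff_mk]
    simpa using ne_zero_of (Gfun_bound M _ hc 0 (by simpa using pow_pos g_pos 2))
  have hrec : ∀ (c : ℕ → ℕ), (∀ j, 2 ≤ c j) → ∀ M, T (Gfun c (M + 1)) =
      ∑ i ∈ range (c 0), PowerSeries.X ^ i
        - PowerSeries.X ^ (c 0 - 1) * (T (Gfun (fun j => c (j + 1)) M))⁻¹ := by
    intro c hc N
    have hc' : ∀ j, 2 ≤ c (j + 1) := fun j => hc (j + 1)
    have hA := Gfun_analyticAt N (fun j => c (j + 1)) hc'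
    have hne : Gfun (fun j => c (j + 1)) N 0 ≠ 0 :=
      ne_zero_of (Gfun_bound N _ hc' 0 (by simpa using pow_pos g_pos 2))
    have h1 : Gfun c (N + 1) = (fun z => ∑ i ∈ range (c 0), z ^ i)
        - (fun z => z ^ (c 0 - 1)) * (Gfun (fun j => c (j + 1)) N)⁻¹ := by
      ext z
      simp [Gfun]
    rw [h1, T_sub (by fun_prop) (AnalyticAt.mul (by fun_prop) (hA.inv hne)),
      T_mul (by fun_prop) (hA.inv hne), T_geom, T_pow, T_inv hA hne]
  induction N with
  | zero =>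
    intro c hc M _
    rcases M with _ | M
    · simp
    · rw [hrec c hc M]
      have h0 : T (Gfun c 0) = ∑ i ∈ range (c 0), PowerSeries.X ^ i := by
        simp only [Gfun]
        exact T_geom _
      rw [h0, sub_sub_cancel_left]
      obtain ⟨m, hm⟩ : ∃ m, c 0 - 1 = m + 1 := ⟨c 0 - 2, by have := hc 0; omega⟩
      rw [hm, dvd_neg]
      exact Dvd.dvd.mul_right (pow_dvd_pow _ (by omega)) _
  | succ N ih =>
    intro c hc M hM
    obtain ⟨M, rfl⟩ : ∃ M', M = M' + 1 := ⟨M - 1, by omega⟩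
    have hc' : ∀ j, 2 ≤ c (j + 1) := fun j => hc (j + 1)
    obtain ⟨w, hw⟩ := ih _ hc' M (by omega)
    rw [hrec c hc M, hrec c hc N]
    set f := T (Gfun (fun j => c (j + 1)) M) with hf
    set e := T (Gfun (fun j => c (j + 1)) N) with he
    have hf0 : PowerSeries.constantCoeff f ≠ 0 := hcoe _ hc' M
    have he0 : PowerSeries.constantCoeff e ≠ 0 := hcoe _ hc' N
    obtain ⟨m, hm⟩ : ∃ m, c 0 - 1 = m + 1 := ⟨c 0 - 2, by have := hc 0; omega⟩
    have h1 : e⁻¹ - f⁻¹ = (f - e) * (e⁻¹ * f⁻¹) := by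
      have h2 := PowerSeries.mul_inv_cancel f hf0
      have h3 := PowerSeries.mul_inv_cancel e he0
      calc e⁻¹ - f⁻¹ = e⁻¹ * (f * f⁻¹) - (e * e⁻¹) * f⁻¹ := by rw [h2, h3]; ring
        _ = (f - e) * (e⁻¹ * f⁻¹) := by ring
    refine ⟨PowerSeries.X ^ m * w * (e⁻¹ * f⁻¹), ?_⟩
    have h4 : (∑ i ∈ range (c 0), PowerSeries.X ^ i - PowerSeries.X ^ (c 0 - 1) * f⁻¹)
        - (∑ i ∈ range (c 0), PowerSeries.X ^ i - PowerSeries.X ^ (c 0 - 1) * e⁻¹)
        = PowerSeries.X ^ (c 0 - 1) * (e⁻¹ - f⁻¹) := by ring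
    rw [h4, h1, hw, hm]
    ring

lemma exists_limit (c : ℕ → ℕ) (hc : ∀ j, 2 ≤ c j) :
    ∃ F : L, ∀ k : ℤ, ∀ᶠ N in atTop, (qCF c N).coeff k = F.coeff k := by
  let f : PowerSeries ℂ := PowerSeries.mk fun k => PowerSeries.coeff k (T (Gfun c k))
  refine ⟨(f : L), fun k => ?_⟩
  filter_upwards [eventually_ge_atTop k.natAbs] with N hN
  rw [← coe_T N c hc, PowerSeries.coeff_coe, PowerSeries.coeff_coe]
  split_ifs with hk
  · rfl
  · simp only [f, PowerSeries.coeff_mk]
    have h1 := (PowerSeries.X_pow_dvd_iff.mp (stab k.natAbs c hc N hN)) k.natAbs (Nat.lt_succ_self _)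
    rw [map_sub, sub_eq_zero] at h1
    exact h1

lemma exists_qReal (x : ℝ) : ∃ F, IsQReal x F := by
  have base : ∀ y : ℝ, 1 ≤ y → ∃ F, IsQReal y F := by
    intro y hy
    have hc : ∀ j, 2 ≤ (fun j => ⌊rem y j⌋₊ + 1) j := by
      intro j
      have h1 : 1 ≤ ⌊rem y j⌋₊ := by
        rw [Nat.one_le_floor_iff]
        exact one_le_rem hy j
      simp only
      omega
    obtain ⟨F, hF⟩ := exists_limit _ hc
    refine ⟨F, IsQReal.limit y F _ hc ?_ hF⟩
    have hz : Tendsto (fun N : ℕ => 1 / (N + 1 : ℝ)) atTop (𝓝 0) :=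
      tendsto_one_div_add_atTop_nhds_zero_nat
    have h2 : Tendsto (fun N : ℕ => y + 1 / (N + 1 : ℝ)) atTop (𝓝 (y + 0)) :=
      tendsto_const_nhds.add hz
    rw [add_zero] at h2
    refine tendsto_of_tendsto_of_tendsto_of_le_of_le tendsto_const_nhds h2
      (fun N => (negCF_rem N y hy).1) (fun N => ?_)
    have := (negCF_rem N y hy).2
    simp only at this ⊢
    linarith
  obtain ⟨n, hn⟩ := exists_nat_ge (1 - x)
  have key : ∀ m : ℕ, ∀ y : ℝ, 1 ≤ y + m → ∃ F, IsQReal y F := by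
    intro m
    induction m with
    | zero => intro y hy; exact base y (by simpa using hy)
    | succ m ih =>
      intro y hy
      obtain ⟨F, hF⟩ := ih (y + 1) (by push_cast at hy; linarith)
      refine ⟨q⁻¹ * (F - 1), ?_⟩
      have := IsQReal.shift (y + 1) F hF
      rwa [add_sub_cancel_right] at this
  exact key n x (by linarith)

/-- For every real number `x`, the `q`-deformation `[x]_q` exists, and its radius of convergence
is at least `(3 - √5)/2`. -/
theorem result (x : ℝ) :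
    (∃ F, IsQReal x F) ∧ ∀ F, IsQReal x F → ENNReal.ofReal ((3 - √5) / 2) ≤ radius F := by
  refine ⟨exists_qReal x, fun F hF => ?_⟩
  rw [Rstar_eq]
  apply ENNReal.le_of_forall_nnreal_lt
  intro r hr
  rcases eq_or_lt_of_le (zero_le (a := r)) with h0 | h0
  · rw [← h0]; simp
  · have hr1 : (r : ℝ) < g ^ 2 := by
      have := (ENNReal.lt_ofReal_iff_toReal_lt ENNReal.coe_ne_top).mp hr
      simpa using this
    obtain ⟨C, hC⟩ := coeff_bound hF (r := (r : ℝ)) (by exact_mod_cast h0) hr1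
    apply FormalMultilinearSeries.le_radius_of_bound _ C
    intro n
    rw [FormalMultilinearSeries.ofScalars_norm]
    exact hC n

end Pool.Agent.Results.MP_b13893_an.QRadius
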